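import Pool.Agent.H38.EQQ.Targets

/-!
# TGQ: no mass escapes, with power savings
-/

set_option autoImplicit false

open Finset

namespace Pool.Agent.H38.EQQ

open Pool.Agent.H38.EQ
open Pool.Agent.H38.AE.Statement (Admissible radical)
open Pool.Agent.H38.AT (height)
open Pool.Agent.H82.AS (Sqf ex sq)

theorem pf_TGQ (h1 : T_SQL) (h2 : T_SQM) (h3 : T_HTQ) (h4 : Pool.Agent.H82.AS.T_SQB) :
    T_TGQ := by
  classical
  intro n hn
  obtain ⟨η, c, C, hη, hc, hC, h2⟩ := h2 n hn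
  obtain ⟨ε₀, c', C', hε₀, hc', hC', h1⟩ := h1 n hn η hη
  obtain ⟨K, hK, h3⟩ := h3 n hn
  refine ⟨ε₀, min c c', 2 * C + C' + K, hε₀, lt_min hc hc', by positivity, ?_⟩
  intro X Y lam F hX1 hY1 hlam1 hF
  set m : ℝ := min c c' with hm
  have hX0 : 0 < X := by linarith
  have hY0 : 0 < Y := by linarith
  have hl0 : 0 < lam := by linarith
  set A : ℝ := X ^ (1 - 1 / (n : ℝ)) with hA
  have hA0 : 0 ≤ A := Real.rpow_nonneg hX0.le _
  have hsplit : ∀ e : ℝ, X ^ (1 - 1 / (n : ℝ) - e) = X ^ (-e) * A := by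
    intro e
    rw [hA, ← Real.rpow_add hX0]
    congr 1
    ring
  have hXc : X ^ (-c) ≤ X ^ (-m) :=
    Real.rpow_le_rpow_of_exponent_le hX1 (neg_le_neg (min_le_left _ _))
  have hXc' : X ^ (-c') ≤ X ^ (-m) :=
    Real.rpow_le_rpow_of_exponent_le hX1 (neg_le_neg (min_le_right _ _))
  have hYc : Y ^ (-c) ≤ Y ^ (-m) :=
    Real.rpow_le_rpow_of_exponent_le hY1 (neg_le_neg (min_le_left _ _))
  have hXm : 0 ≤ X ^ (-m) := Real.rpow_nonneg hX0.le _
  have hYm : 0 ≤ Y ^ (-m) := Real.rpow_nonneg hY0.le _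
  have hlm : 0 ≤ Y ^ 3 * lam ^ (-(1 / 2) : ℝ) := by positivity
  set F1 := F.filter (fun x => X ^ η < (sq (pr x) : ℝ)) with hF1
  set G := F.filter (fun x => ¬ X ^ η < (sq (pr x) : ℝ)) with hG
  set F2 := G.filter (fun x => Y ≤ (sq (pr x) : ℝ)) with hF2
  set F3 := G.filter (fun x => ¬ Y ≤ (sq (pr x) : ℝ)) with hF3
  have hcF : F.card = F1.card + G.card := (Finset.card_filter_add_card_filter_not _).symm
  have hcG : G.card = F2.card + F3.card := (Finset.card_filter_add_card_filter_not _).symm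
  have b1 : (F1.card : ℝ) ≤ C' * (X ^ (-m) * A) := by
    have h5 := h1 X F1 hX1 (fun x hx => by
      obtain ⟨hx1, hx2⟩ := Finset.mem_filter.mp hx
      obtain ⟨a1, a2, a3, a4⟩ := hF x hx1
      exact ⟨a1, a3, hx2⟩)
    rw [hsplit c'] at h5
    refine h5.trans ?_
    gcongr
  have b2 : (F2.card : ℝ) ≤ C * (Y ^ (-m) * A + X ^ (-m) * A) := by
    have h5 := h2 X Y F2 hX1 hY1 (fun x hx => by
      obtain ⟨hx1, hx2⟩ := Finset.mem_filter.mp hx
      obtain ⟨hx3, hx4⟩ := Finset.mem_filter.mp hx1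
      obtain ⟨a1, a2, a3, a4⟩ := hF x hx3
      exact ⟨a1, a2, hx2, not_lt.mp hx4⟩)
    rw [hsplit c] at h5
    refine h5.trans ?_
    gcongr
  have b3 : (F3.card : ℝ) ≤ K * Y ^ 3 * lam ^ (-(1 / 2) : ℝ) * A := by
    refine h3 X Y lam F3 hX1 hY1 hlam1 (fun x hx => ?_)
    obtain ⟨hx1, hx2⟩ := Finset.mem_filter.mp hx
    obtain ⟨hx3, hx4⟩ := Finset.mem_filter.mp hx1
    obtain ⟨a1, a2, a3, a4⟩ := hF x hx3
    have hsY : (sq (pr x) : ℝ) < Y := not_le.mp hx2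
    refine ⟨a1, a2, hsY.le, ?_⟩
    rcases a4 with a4 | a4
    · exfalso
      have hp : 1 ≤ pr x := by
        unfold pr
        refine Nat.one_le_iff_ne_zero.mpr (Int.natAbs_ne_zero.mpr ?_)
        exact Finset.prod_ne_zero_iff.mpr (fun i _ => a1.1 i)
      obtain ⟨_, s2, s3, _⟩ := h4 (pr x) hp
      have hs : 1 ≤ Pool.Agent.H82.AS.sq (pr x) := Nat.pos_of_dvd_of_pos s2 hp
      obtain ⟨_, _, _, _, _, s6, _⟩ := h4 (Pool.Agent.H82.AS.sq (pr x)) hs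
      rw [s3] at s6
      linarith
    · exact a4
  rw [hcF, hcG]
  push_cast
  have e1 : C' * (X ^ (-m) * A) ≤ (2 * C + C' + K) * (X ^ (-m) * A) -
      2 * C * (X ^ (-m) * A) - K * (X ^ (-m) * A) := by
    apply le_of_eq; ring
  have p1 : 0 ≤ C * (X ^ (-m) * A) := by positivity
  have p2 : 0 ≤ K * (X ^ (-m) * A) := by positivity
  have p3 : 0 ≤ C * (Y ^ (-m) * A) := by positivity
  have p4 : 0 ≤ C' * (Y ^ (-m) * A) := by positivity
  have p5 : 0 ≤ K * (Y ^ (-m) * A) := by positivity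
  have p6 : 0 ≤ C * (Y ^ 3 * lam ^ (-(1 / 2) : ℝ) * A) := by positivity
  have p7 : 0 ≤ C' * (Y ^ 3 * lam ^ (-(1 / 2) : ℝ) * A) := by positivity
  calc (F1.card : ℝ) + (F2.card + F3.card)
      ≤ C' * (X ^ (-m) * A) + (C * (Y ^ (-m) * A + X ^ (-m) * A) +
        K * Y ^ 3 * lam ^ (-(1 / 2) : ℝ) * A) := by linarith
    _ ≤ (2 * C + C' + K) * (Y ^ (-m) * A) + (2 * C + C' + K) *
        (Y ^ 3 * lam ^ (-(1 / 2) : ℝ) * A) + (2 * C + C' + K) * (X ^ (-m) * A) := by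
        linarith
    _ = (2 * C + C' + K) * (Y ^ (-m) + Y ^ 3 * lam ^ (-(1 / 2) : ℝ) + X ^ (-m)) * A := by ring

end Pool.Agent.H38.EQQ
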