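import Pool.Agent.H38.EQQ.HTQ
import Pool.Agent.H38.EQQ.TGQ
import Pool.Agent.H38.EQ.CY
import Pool.Agent.H38.EQ.DYA
import Pool.Agent.H38.EQ.SQL
import Pool.Agent.H40.EQ.BXN
import Pool.Agent.H40.EQ.SZ
import Pool.Agent.H40.EQ.ADN
import Pool.Agent.H86.EQ.SQM
import Pool.Agent.H13.EQ.SQD
import Pool.Agent.H52.EQ.SQN
import Pool.Agent.H14.AS.DVB
import Pool.Agent.H68.AS.SQB

/-!
# The counting side: composition
-/

set_option autoImplicit false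

namespace Pool.Agent.H38.EQQ

open Pool.Agent.H38.EQ

theorem c_BXN : T_BXN := Pool.Agent.H40.EQ.pf_BXN

theorem c_DYA : T_DYA := Pool.Agent.H38.EQ.pf_DYA Pool.Agent.H38.EQ.pf_CY

theorem c_SZ : T_SZ := Pool.Agent.H40.EQ.pf_SZ c_BXN c_DYA

theorem c_SQB : Pool.Agent.H82.AS.T_SQB := Pool.Agent.H68.AS.pf_SQB

theorem c_DVB : Pool.Agent.H82.AS.T_DVB := Pool.Agent.H14.AS.pf_DVB

theorem c_ADN : T_ADN := Pool.Agent.H40.EQ.pf_ADN c_SZ c_DVB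

theorem c_SQD : T_SQD := Pool.Agent.H13.EQ.pf_SQD

theorem c_SQN : T_SQN := Pool.Agent.H52.EQ.pf_SQN c_SQD

theorem c_SQL : T_SQL := Pool.Agent.H38.EQ.pf_SQL c_BXN c_SQN c_SQB

theorem c_SQM : T_SQM := Pool.Agent.H86.EQ.SQM.pf_SQM c_ADN c_SQN c_SQB

theorem c_HTQ : T_HTQ := pf_HTQ c_ADN c_SQB

theorem c_TGQ : T_TGQ := pf_TGQ c_SQL c_SQM c_HTQ c_SQB

end Pool.Agent.H38.EQQ
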