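import Pool.Agent.H38.EQQ.All
import Pool.Agent.H72.EQQ.Targets

/-!
# Rows HTQ and TGQ of `Pool.Agent.H72.EQQ.Targets`
-/

set_option autoImplicit false

namespace Pool.Agent.H38.EQQ

theorem r_HTQ : Pool.Agent.H72.EQQ.T_HTQ := c_HTQ

theorem r_TGQ : Pool.Agent.H72.EQQ.T_TGQ := by
  intro n hn
  obtain ⟨ε₀, c, C, hε₀, hc, hC, h⟩ := c_TGQ n hn
  refine ⟨ε₀, c, C, hε₀, hc, hC, ?_⟩
  intro X Y lam F hX hY hlam hF
  have h1 := h X Y lam F hX hY hlam (fun x hx => by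
    obtain ⟨a1, a2, a3, a4⟩ := hF x hx
    exact ⟨a1, a2, a3, a4.imp (fun h => h.le) id⟩)
  refine h1.trans ?_
  have hY0 : (0 : ℝ) ≤ Y := by linarith
  have hX0 : (0 : ℝ) ≤ X := by linarith
  have hl0 : (0 : ℝ) ≤ lam := by linarith
  have h3 : Y ^ 3 ≤ Y ^ 6 := pow_le_pow_right₀ hY (by norm_num)
  have h4 : 0 ≤ lam ^ (-(1 / 2) : ℝ) := Real.rpow_nonneg hl0 _
  have h5 : 0 ≤ X ^ (1 - 1 / (n : ℝ)) := Real.rpow_nonneg hX0 _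
  gcongr

end Pool.Agent.H38.EQQ
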