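import Pool.Agent.H38.EQ.Targets

/-!
# Equidistribution of admissible tuples ordered by radical: the counting side with explicit
dependence on the parameters
-/

set_option autoImplicit false

open Finset

namespace Pool.Agent.H38.EQQ

open Pool.Agent.H38.AE.Statement (Admissible radical)
open Pool.Agent.H38.AT (height)
open Pool.Agent.H82.AS (Sqf ex sq)
open Pool.Agent.H38.EQ (pr)

/-- HTQ: radical at most `X`, squarefull part at most `Y`, large height. -/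
def T_HTQ : Prop := ∀ n : ℕ, 3 ≤ n → ∃ C : ℝ, 0 < C ∧
  ∀ (X Y lam : ℝ) (F : Finset (Fin n → ℤ)), 1 ≤ X → 1 ≤ Y → 1 ≤ lam →
    (∀ x ∈ F, Admissible x ∧ (radical (∏ i, x i) : ℝ) ≤ X ∧ (sq (pr x) : ℝ) ≤ Y ∧
      lam * X ^ (1 / (n : ℝ)) ≤ (height x : ℝ)) →
    (F.card : ℝ) ≤ C * Y ^ 3 * lam ^ (-(1 / 2) : ℝ) * X ^ (1 - 1 / (n : ℝ))

/-- TGQ: no mass escapes, with power savings. -/
def T_TGQ : Prop := ∀ n : ℕ, 3 ≤ n → ∃ ε₀ c C : ℝ, 0 < ε₀ ∧ 0 < c ∧ 0 < C ∧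
  ∀ (X Y lam : ℝ) (F : Finset (Fin n → ℤ)), 1 ≤ X → 1 ≤ Y → 1 ≤ lam →
    (∀ x ∈ F, Admissible x ∧ (radical (∏ i, x i) : ℝ) ≤ X ∧
      (height x : ℝ) ≤ X ^ (1 / (n : ℝ) + ε₀) ∧
      (Y ≤ ex (pr x) ∨ lam * X ^ (1 / (n : ℝ)) ≤ (height x : ℝ))) →
    (F.card : ℝ) ≤ C * (Y ^ (-c) + Y ^ 3 * lam ^ (-(1 / 2) : ℝ) + X ^ (-c)) *
      X ^ (1 - 1 / (n : ℝ))

end Pool.Agent.H38.EQQ
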